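import Mathlib
import Pool.Agent.Lib.MP_85963d_gt.Interfaces

/-!
# Density of the polynomial spaces: Stone-Weierstrass part
-/

set_option autoImplicit false

open MeasureTheory Set Filter Topology Quaternion
open scoped Real ContDiff

namespace Pool.Agent.MP85963d.H93

open SF

theorem qc_smul (r : ℝ) (x : ℍ) : qc (r • x) = r • qc x := by
  funext i
  fin_cases i <;> simp [qc]

theorem qc_injective : Function.Injective qc := by
  intro x y h
  have h0 := congrFun h 0
  have h1 := congrFun h 1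
  have h2 := congrFun h 2
  have h3 := congrFun h 3
  apply Quaternion.ext
  · simpa [qc] using h0
  · simpa [qc] using h1
  · simpa [qc] using h2
  · simpa [qc] using h3

theorem qc_eq_zero {x : ℍ} (h : qc x = 0) : x = 0 := by
  apply qc_injective
  rw [h]
  funext i
  fin_cases i <;> simp [qc]

/-- `qc` as a linear map -/
noncomputable def qcL : ℍ →L[ℝ] (Fin 4 → ℝ) :=
  LinearMap.toContinuousLinearMap
    { toFun := qc
      map_add' := by intro a b; funext i; fin_cases i <;> simp [qc]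
      map_smul' := by intro r a; exact qc_smul r a }

theorem qcL_apply (x : ℍ) : qcL x = qc x := rfl

theorem contDiff_qc (i : Fin 4) : ContDiff ℝ ∞ (fun x : ℍ => qc x i) := by
  have h := (ContinuousLinearMap.proj (R := ℝ) (φ := fun _ : Fin 4 => ℝ) i).comp qcL
  exact ((ContinuousLinearMap.proj (R := ℝ) (φ := fun _ : Fin 4 => ℝ) i).comp qcL).contDiff

theorem contDiff_eval (P : MvPolynomial (Fin 4) ℝ) :
    ContDiff ℝ ∞ (fun x : ℍ => MvPolynomial.eval (qc x) P) := by
  induction P using MvPolynomial.induction_on with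
  | C a => simpa using contDiff_const
  | add p q hp hq => simpa using hp.add hq
  | mul_X p i hp => simpa using hp.mul (contDiff_qc i)

theorem eval_smul_hom {P : MvPolynomial (Fin 4) ℝ} {n : ℕ} (hP : P.IsHomogeneous n) (r : ℝ)
    (v : Fin 4 → ℝ) : MvPolynomial.eval (r • v) P = r ^ n * MvPolynomial.eval v P := by
  rw [MvPolynomial.eval_eq', MvPolynomial.eval_eq', Finset.mul_sum]
  apply Finset.sum_congr rfl
  intro d hd
  have hdeg : ∑ i, d i = n := by
    have := hP (MvPolynomial.mem_support_iff.1 hd)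
    rw [← this, Finsupp.weight_apply, Finsupp.sum_fintype]
    · simp
    · simp
  simp only [Pi.smul_apply, smul_eq_mul, mul_pow, Finset.prod_mul_distrib, Finset.prod_pow_eq_pow_sum,
    hdeg]
  ring

/-- the norm form -/
noncomputable def NN : MvPolynomial (Fin 4) ℝ := ∑ i, MvPolynomial.X i ^ 2

theorem NN_hom : NN.IsHomogeneous 2 := by
  apply MvPolynomial.IsHomogeneous.sum
  intro i _
  simpa using (MvPolynomial.isHomogeneous_X ℝ i).pow 2

theorem eval_NN (x : ℍ) : MvPolynomial.eval (qc x) NN = ‖x‖ ^ 2 := by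
  have : ‖x‖ ^ 2 = Quaternion.normSq x := by
    rw [sq, ← Quaternion.normSq_eq_norm_mul_self]
  rw [this, Quaternion.normSq_def']
  simp [NN, Fin.sum_univ_four, qc]

/-- elements of `MN n` from homogeneous polynomials -/
noncomputable def mk (n : ℕ) (P : MvPolynomial (Fin 4) ℝ) (hP : P.IsHomogeneous (2 * n)) : SF :=
  SF.of (fun x => MvPolynomial.eval (qc x) P / ‖x‖ ^ (2 * n))
    (by
      apply ContDiffOn.div (contDiff_eval P).contDiffOn
      · have : (fun x : ℍ => ‖x‖ ^ (2 * n)) = fun x : ℍ => (‖x‖ ^ 2) ^ n := by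
          funext x; rw [pow_mul]
        rw [this]
        exact ((contDiff_norm_sq ℝ).pow n).contDiffOn
      · intro x hx
        exact pow_ne_zero _ (norm_ne_zero_iff.2 hx))
    (by
      intro r x hr hx
      rw [qc_smul, eval_smul_hom hP, norm_smul, mul_pow]
      have h1 : ‖r‖ ^ (2 * n) = r ^ (2 * n) := by
        rw [pow_mul, pow_mul, Real.norm_eq_abs, sq_abs]
      rw [h1]
      have h2 : r ^ (2 * n) ≠ 0 := pow_ne_zero _ hr
      exact mul_div_mul_left _ _ h2)

theorem mk_apply {n : ℕ} {P : MvPolynomial (Fin 4) ℝ} {hP : P.IsHomogeneous (2 * n)} {x : ℍ}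
    (hx : x ≠ 0) : (mk n P hP) x = MvPolynomial.eval (qc x) P / ‖x‖ ^ (2 * n) :=
  SF.of_apply hx

theorem mk_mem {n : ℕ} {P : MvPolynomial (Fin 4) ℝ} {hP : P.IsHomogeneous (2 * n)} :
    mk n P hP ∈ MN n := ⟨P, hP, fun _ hx => mk_apply hx⟩

/-- homogenized even part -/
noncomputable def evenHom (P : MvPolynomial (Fin 4) ℝ) : MvPolynomial (Fin 4) ℝ :=
  ∑ d ∈ Finset.range (P.totalDegree + 1),
    if Even d then MvPolynomial.homogeneousComponent d P * NN ^ ((2 * P.totalDegree - d) / 2) else 0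

theorem evenHom_hom (P : MvPolynomial (Fin 4) ℝ) :
    (evenHom P).IsHomogeneous (2 * P.totalDegree) := by
  apply MvPolynomial.IsHomogeneous.sum
  intro d hd
  split_ifs with h
  · have h1 := (MvPolynomial.homogeneousComponent_isHomogeneous d P).mul
      (NN_hom.pow ((2 * P.totalDegree - d) / 2))
    have hd' : d ≤ P.totalDegree := Nat.lt_succ_iff.1 (Finset.mem_range.1 hd)
    obtain ⟨e, rfl⟩ := h
    have e1 : e + e + 2 * ((2 * P.totalDegree - (e + e)) / 2) = 2 * P.totalDegree := by omega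
    rwa [e1] at h1
  · exact MvPolynomial.isHomogeneous_zero _ _ _

theorem eval_evenHom (P : MvPolynomial (Fin 4) ℝ) {x : ℍ} (hx : ‖x‖ = 1) :
    MvPolynomial.eval (qc x) (evenHom P)
      = (MvPolynomial.eval (qc x) P + MvPolynomial.eval (qc (-x)) P) / 2 := by
  have h1 : ∀ y : ℍ, MvPolynomial.eval (qc y) P
      = ∑ d ∈ Finset.range (P.totalDegree + 1),
        MvPolynomial.eval (qc y) (MvPolynomial.homogeneousComponent d P) := by
    intro y
    conv_lhs => rw [← MvPolynomial.sum_homogeneousComponent P]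
    rw [map_sum]
  have h2 : ∀ d, MvPolynomial.eval (qc (-x)) (MvPolynomial.homogeneousComponent d P)
      = (-1) ^ d * MvPolynomial.eval (qc x) (MvPolynomial.homogeneousComponent d P) := by
    intro d
    have : qc (-x) = (-1 : ℝ) • qc x := by
      rw [← qc_smul]; simp
    rw [this, eval_smul_hom (MvPolynomial.homogeneousComponent_isHomogeneous d P)]
  rw [h1 x, h1 (-x), evenHom, map_sum, ← Finset.sum_add_distrib, Finset.sum_div]
  apply Finset.sum_congr rfl
  intro d _
  rw [h2 d]
  split_ifs with h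
  · rw [map_mul, map_pow, eval_NN, hx, h.neg_one_pow]; ring
  · rw [map_zero, (Nat.not_even_iff_odd.1 h).neg_one_pow]; ring

/-- the algebra of polynomial functions on the unit sphere -/
noncomputable def polyHom : MvPolynomial (Fin 4) ℝ →ₐ[ℝ] C(Metric.sphere (0:ℍ) 1, ℝ) :=
  MvPolynomial.aeval fun i => ⟨fun x => qc x.1 i,
    ((contDiff_qc i).continuous.comp continuous_subtype_val)⟩

theorem polyHom_apply (P : MvPolynomial (Fin 4) ℝ) (x : Metric.sphere (0:ℍ) 1) :
    polyHom P x = MvPolynomial.eval (qc x.1) P := by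
  induction P using MvPolynomial.induction_on with
  | C a => simp [polyHom]
  | add p q hp hq => rw [map_add, ContinuousMap.add_apply, hp, hq, map_add]
  | mul_X p i hp =>
    rw [map_mul, ContinuousMap.mul_apply, hp, map_mul, MvPolynomial.eval_X]
    congr 1
    simp [polyHom]

theorem dens_mn (f : ℍ → ℝ) (hf : Cts f) (ε : ℝ) (hε : 0 < ε) :
    ∃ n, ∃ F ∈ MN n, ∀ x : ℍ, x ≠ 0 → |f x - F x| ≤ ε := by
  have hsep : (polyHom.range : Subalgebra ℝ C(Metric.sphere (0:ℍ) 1, ℝ)).SeparatesPoints := by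
    intro x y hxy
    have h1 : qc x.1 ≠ qc y.1 := fun h => hxy (Subtype.ext (qc_injective h))
    obtain ⟨i, hi⟩ := Function.ne_iff.1 h1
    refine ⟨_, ⟨polyHom (MvPolynomial.X i), ⟨MvPolynomial.X i, rfl⟩, rfl⟩, ?_⟩
    change polyHom (MvPolynomial.X i) x ≠ polyHom (MvPolynomial.X i) y
    rw [polyHom_apply, polyHom_apply, MvPolynomial.eval_X, MvPolynomial.eval_X]
    exact hi
  have hc : Continuous fun x : Metric.sphere (0:ℍ) 1 => f x.1 := by
    rw [← continuousOn_univ]
    apply hf.cont.comp continuous_subtype_val.continuousOn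
    intro x _ h0
    have h1 := x.2
    rw [mem_sphere_zero_iff_norm] at h1
    rw [mem_singleton_iff] at h0
    rw [h0] at h1
    simp at h1
  obtain ⟨⟨g, ⟨P, hP⟩⟩, hg⟩ :=
    ContinuousMap.exists_mem_subalgebra_near_continuous_of_separatesPoints _ hsep _ hc ε hε
  have hP2 : ∀ x : ℍ, ‖x‖ = 1 → |MvPolynomial.eval (qc x) P - f x| < ε := by
    intro x hx
    have h1 := hg ⟨x, by simpa using hx⟩
    have h2 : g ⟨x, by simpa using hx⟩ = MvPolynomial.eval (qc x) P := by
      rw [← hP]; exact polyHom_apply P ⟨x, by simpa using hx⟩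
    rw [Real.norm_eq_abs] at h1
    simpa [h2] using h1
  refine ⟨P.totalDegree, mk _ _ (evenHom_hom P), mk_mem, ?_⟩
  intro x hx
  have hn : ‖x‖ ≠ 0 := norm_ne_zero_iff.2 hx
  set y : ℍ := (‖x‖⁻¹ : ℝ) • x with hy
  have hr : (‖x‖⁻¹ : ℝ) ≠ 0 := inv_ne_zero hn
  have hy1 : ‖y‖ = 1 := by
    rw [hy, norm_smul, norm_inv, norm_norm, inv_mul_cancel₀ hn]
  have hy0 : y ≠ 0 := fun h => by simp [h] at hy1
  have e1 : f x = f y := (hf.hom _ x hr hx).symm
  have e2 : (mk _ _ (evenHom_hom P)) x = (mk _ _ (evenHom_hom P)) y := by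
    rw [hy, SF.hom _ hr]
  have e3 : f (-y) = f y := by
    have := hf.hom (-1) y (by norm_num) hy0
    simpa using this
  rw [e1, e2, mk_apply hy0, hy1, one_pow, div_one, eval_evenHom P hy1]
  have b1 := hP2 y hy1
  have b2 := hP2 (-y) (by rw [norm_neg, hy1])
  rw [e3] at b2
  rw [abs_lt] at b1 b2
  rw [abs_le]
  constructor <;> linarith [b1.1, b1.2, b2.1, b2.2]

end Pool.Agent.MP85963d.H93
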