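import Mathlib
import Pool.Agent.Lib.MP_85963d_gt.H93.Dens1

/-!
# Density of the polynomial spaces: averages
-/

set_option autoImplicit false

open MeasureTheory Set Filter Topology Quaternion
open scoped Real ContDiff

namespace Pool.Agent.MP85963d.H93

open SF

theorem cts_even {f : ℍ → ℝ} (hf : Cts f) {x : ℍ} (hx : x ≠ 0) : f (-x) = f x := by
  have := hf.hom (-1) x (by norm_num) hx
  simpa using this

theorem cts_SF (F : SF) : Cts F := ⟨F.continuousOn, fun _ x hr _ => F.hom hr x⟩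

theorem rot_two_pi (a : ℍ) (t : ℝ) : rot a (t + 2 * π) = - rot a t := by
  have e : (t + 2 * π) / 2 = t / 2 + π := by ring
  simp only [rot, e, Real.cos_add_pi, Real.sin_add_pi]
  module

theorem rot_neg_neg (a : ℍ) (t : ℝ) : rot a (-t) = rot (-a) t := by
  have e : (-t) / 2 = -(t / 2) := by ring
  simp only [rot, e, Real.cos_neg, Real.sin_neg]
  module

/-- `rot i t k = k rot i (-t)` -/
theorem rotI_mul_K (t : ℝ) : rot qI t * qK = qK * rot qI (-t) := by
  rw [rot_neg_neg]
  simp only [rot, add_mul, mul_add, smul_mul_assoc, mul_smul_comm, one_mul, mul_one, qI_mul_qK,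
    mul_neg, qK_mul_qI]

theorem rotK_mul_I (t : ℝ) : rot qK t * qI = qI * rot qK (-t) := by
  rw [rot_neg_neg]
  simp only [rot, add_mul, mul_add, smul_mul_assoc, mul_smul_comm, one_mul, mul_one, qI_mul_qK,
    mul_neg, qK_mul_qI, neg_neg]

/-- `j rot k t = rot k (-t) j` -/
theorem J_mul_rotK (t : ℝ) : qJ * rot qK t = rot qK (-t) * qJ := by
  rw [rot_neg_neg]
  simp only [rot, add_mul, mul_add, smul_mul_assoc, mul_smul_comm, one_mul, mul_one, qJ_mul_qK,
    neg_mul, qK_mul_qJ, neg_neg]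

/-- parametric integrals are continuous off the origin -/
theorem continuousOn_param {u : ℍ → ℝ → ℝ}
    (hu : ContinuousOn (Function.uncurry u) ({0}ᶜ ×ˢ univ)) (a b : ℝ) :
    ContinuousOn (fun x => ∫ t in a..b, u x t) {0}ᶜ := by
  rw [continuousOn_iff_continuous_domRestrict]
  have h1 : Continuous (Function.uncurry fun (x : ({0}ᶜ : Set ℍ)) (t : ℝ) => u x.1 t) := by
    rw [← continuousOn_univ]
    have h2 : ContinuousOn (fun p : ({0}ᶜ : Set ℍ) × ℝ => ((p.1 : ℍ), p.2)) univ :=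
      ((continuous_subtype_val.comp continuous_fst).prodMk continuous_snd).continuousOn
    exact hu.comp h2 fun p _ => ⟨p.1.2, mem_univ _⟩
  exact intervalIntegral.continuous_parametric_intervalIntegral_of_continuous' h1 a b

/-- Fubini on the shell -/
theorem fubini_shell {u : ℍ → ℝ → ℝ} (hu : ContinuousOn (Function.uncurry u) ({0}ᶜ ×ˢ univ))
    {T : ℝ} (hT : 0 ≤ T) :
    ∫ x in shell, (∫ t in (0:ℝ)..T, u x t) = ∫ t in (0:ℝ)..T, (∫ x in shell, u x t) := by
  have hcont : ContinuousOn (Function.uncurry u) (shell ×ˢ Icc 0 T) :=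
    hu.mono (Set.prod_mono shell_subset (subset_univ _))
  have hint : IntegrableOn (Function.uncurry u) (shell ×ˢ Icc 0 T) (volume.prod volume) :=
    hcont.integrableOn_compact (isCompact_shell.prod isCompact_Icc)
  have hint2 : Integrable (Function.uncurry u)
      ((volume.restrict shell).prod (volume.restrict (Ioc 0 T))) := by
    rw [Measure.prod_restrict]
    exact hint.mono_set (Set.prod_mono le_rfl Ioc_subset_Icc_self)
  simp_rw [intervalIntegral.integral_of_le hT]
  exact integral_integral_swap hint2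

/-- a continuous homogeneous function with zero square integral vanishes -/
theorem eq_zero_of_sq {f : ℍ → ℝ} (hf : Cts f) (h0 : ∫ x in shell, f x ^ 2 = 0) :
    ∀ x : ℍ, x ≠ 0 → f x = 0 := by
  have iF : IntegrableOn (fun x => f x ^ 2) shell := integrableOn_shell (hf.cont.pow 2)
  have h5 : (fun x => f x ^ 2) =ᵐ[volume.restrict shell] 0 := by
    rw [← setIntegral_eq_zero_iff_of_nonneg_ae (Eventually.of_forall fun x => sq_nonneg (f x)) iF]
    exact h0
  have hopen : IsOpen {y : ℍ | 1 < ‖y‖ ∧ ‖y‖ < 2} :=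
    (isOpen_lt continuous_const continuous_norm).inter (isOpen_lt continuous_norm continuous_const)
  have h6 : (fun x => f x ^ 2) =ᵐ[volume.restrict {y : ℍ | 1 < ‖y‖ ∧ ‖y‖ < 2}] 0 :=
    ae_restrict_of_ae_restrict_of_subset
      (fun y (hy : 1 < ‖y‖ ∧ ‖y‖ < 2) => (⟨hy.1.le, hy.2.le⟩ : 1 ≤ ‖y‖ ∧ ‖y‖ ≤ 2)) h5
  have hsub : {y : ℍ | 1 < ‖y‖ ∧ ‖y‖ < 2} ⊆ {0}ᶜ := by
    rintro y ⟨hy, _⟩ rfl
    simp at hy
    linarith
  have h7 := Measure.eqOn_open_of_ae_eq h6 hopen ((hf.cont.mono hsub).pow 2)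
    continuousOn_const
  intro x hx
  have hn : ‖x‖ ≠ 0 := norm_ne_zero_iff.2 hx
  have hr : (3 / 2 / ‖x‖ : ℝ) ≠ 0 := by positivity
  have hmem : ((3 / 2 / ‖x‖ : ℝ) • x) ∈ {y : ℍ | 1 < ‖y‖ ∧ ‖y‖ < 2} := by
    have : ‖(3 / 2 / ‖x‖ : ℝ) • x‖ = 3 / 2 := by
      rw [norm_smul, Real.norm_of_nonneg (by positivity)]
      field_simp
    constructor <;> rw [this] <;> norm_num
  have h8 := h7 hmem
  have h9 : f ((3 / 2 / ‖x‖ : ℝ) • x) = 0 := by simpa using h8
  rw [← h9, hf.hom _ _ hr hx]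

/-! ### right averages -/

/-- average over the circles `x rot(a,t)` -/
noncomputable def avgA (a : ℍ) (f : ℍ → ℝ) (x : ℍ) : ℝ :=
  (1 / (2 * π)) * ∫ t in (0:ℝ)..(2 * π), f (x * rot a t)

theorem avgA_I (f : ℍ → ℝ) (x : ℍ) : avgA qI f x = avgI f x := rfl
theorem avgA_K (f : ℍ → ℝ) (x : ℍ) : avgA qK f x = avgK f x := rfl

theorem continuous_right {a : ℍ} (ha : IsImUnit a) {f : ℍ → ℝ} (hf : Cts f) {x : ℍ} (hx : x ≠ 0) :
    Continuous fun t : ℝ => f (x * rot a t) := by
  rw [← continuousOn_univ]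
  exact hf.cont.comp (continuous_const.mul (continuous_rot a)).continuousOn
    fun t _ => rrot_ne_zero ha hx t

theorem continuousOn_right {a : ℍ} (ha : IsImUnit a) {f : ℍ → ℝ} (hf : Cts f) :
    ContinuousOn (Function.uncurry fun (x : ℍ) (t : ℝ) => f (x * rot a t)) ({0}ᶜ ×ˢ univ) := by
  apply hf.cont.comp
  · exact (continuous_fst.mul ((continuous_rot a).comp continuous_snd)).continuousOn
  · rintro ⟨x, t⟩ ⟨hx, -⟩
    exact rrot_ne_zero ha hx t

theorem avgA_cts {a : ℍ} (ha : IsImUnit a) {f : ℍ → ℝ} (hf : Cts f) : Cts (avgA a f) := by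
  refine ⟨(continuousOn_param (continuousOn_right ha hf) _ _).const_smul (1 / (2 * π)), ?_⟩
  intro r x hr hx
  simp only [avgA]
  congr 2
  funext t
  rw [smul_mul_assoc]
  exact hf.hom r _ hr (rrot_ne_zero ha hx t)

theorem periodic_right {a : ℍ} (ha : IsImUnit a) {f : ℍ → ℝ} (hf : Cts f) {x : ℍ} (hx : x ≠ 0) :
    Function.Periodic (fun t : ℝ => f (x * rot a t)) (2 * π) := by
  intro t
  change f (x * rot a (t + 2 * π)) = f (x * rot a t)
  rw [rot_two_pi, mul_neg]
  exact cts_even hf (rrot_ne_zero ha hx t)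

theorem periodic_left {a : ℍ} (ha : IsImUnit a) {f : ℍ → ℝ} (hf : Cts f) {x : ℍ} (hx : x ≠ 0) :
    Function.Periodic (fun t : ℝ => f (rot a t * x)) (2 * π) := by
  intro t
  change f (rot a (t + 2 * π) * x) = f (rot a t * x)
  rw [rot_two_pi, neg_mul]
  exact cts_even hf (lrot_ne_zero ha hx t)

theorem avgA_rot {a : ℍ} (ha : IsImUnit a) {f : ℍ → ℝ} (hf : Cts f) {x : ℍ} (hx : x ≠ 0) (s : ℝ) :
    avgA a f (x * rot a s) = avgA a f x := by
  simp only [avgA]
  congr 1
  have h1 : ∀ t, f (x * rot a s * rot a t) = f (x * rot a (s + t)) := by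
    intro t; rw [rot_add ha, mul_assoc]
  simp_rw [h1]
  rw [intervalIntegral.integral_comp_add_left (fun t => f (x * rot a t)) s]
  have := (periodic_right ha hf hx).intervalIntegral_add_eq s 0
  simpa using this

/-- reflection `x ↦ x b` -/
theorem avgA_mul {a b : ℍ} (ha : IsImUnit a) (hab : ∀ t, rot a t * b = b * rot a (-t))
    {f : ℍ → ℝ} (hf : Cts f) {x : ℍ} (hx : x ≠ 0) (hb : ∀ t, f (x * rot a t * b) = f (x * rot a t)) :
    avgA a f (x * b) = avgA a f x := by
  simp only [avgA]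
  congr 1
  have h1 : ∀ t, f (x * b * rot a t) = f (x * rot a (-t)) := by
    intro t
    have h2 : b * rot a t = rot a (-t) * b := by
      have := hab (-t); rw [neg_neg] at this; exact this.symm
    rw [mul_assoc, h2, ← mul_assoc, hb]
  simp_rw [h1]
  rw [intervalIntegral.integral_comp_neg (fun t => f (x * rot a t))]
  have := (periodic_right ha hf hx).intervalIntegral_add_eq (-(2 * π)) 0
  simpa using this

/-- the average is close to a constant if the function is -/
theorem avg_close {h : ℝ → ℝ} {c ε : ℝ} (hh : Continuous h) (hc : ∀ t, |c - h t| ≤ ε) :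
    |c - (1 / (2 * π)) * ∫ t in (0:ℝ)..(2 * π), h t| ≤ ε := by
  have hp : 0 < 2 * π := by positivity
  have e : c - (1 / (2 * π)) * ∫ t in (0:ℝ)..(2 * π), h t
      = (1 / (2 * π)) * ∫ t in (0:ℝ)..(2 * π), (c - h t) := by
    rw [intervalIntegral.integral_sub (by simp) (hh.intervalIntegrable _ _)]
    simp only [intervalIntegral.integral_const, smul_eq_mul]
    field_simp
    ring
  rw [e, abs_mul, abs_of_pos (by positivity : 0 < 1 / (2 * π))]
  have h1 : |∫ t in (0:ℝ)..(2 * π), (c - h t)| ≤ ε * |2 * π - 0| := by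
    rw [← Real.norm_eq_abs]
    apply intervalIntegral.norm_integral_le_of_norm_le_const
    intro t _
    exact hc t
  rw [sub_zero, abs_of_pos hp] at h1
  calc (1 / (2 * π)) * |∫ t in (0:ℝ)..(2 * π), (c - h t)| ≤ (1 / (2 * π)) * (ε * (2 * π)) :=
        mul_le_mul_of_nonneg_left h1 (by positivity)
    _ = ε := by field_simp

theorem isU_of_avg {G G' : SF} {f : ℍ → ℝ} (hf : Cts f) (h1 : ∀ x : ℍ, x ≠ 0 → G x = avgI f x)
    (h2 : ∀ x : ℍ, G' x = G (x * qK)) : IsU ((1 / 2 : ℝ) • (G + G') : SF) := by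
  have hK : qK ≠ 0 := fun h => by have := isImUnit_K.norm_eq; simp [h] at this
  have r1 : ∀ (x : ℍ) (t : ℝ), G (x * rot qI t) = G x := by
    intro x t
    by_cases hx : x = 0
    · subst hx; simp
    · rw [h1 _ hx, h1 _ (rrot_ne_zero isImUnit_I hx t)]
      exact avgA_rot isImUnit_I hf hx t
  refine ⟨fun x t => ?_, fun x => ?_⟩
  · simp only [smul_apply, add_apply, h2]
    rw [r1, mul_assoc, rotI_mul_K, ← mul_assoc, r1]
  · simp only [smul_apply, add_apply, h2]
    rw [mul_assoc x qK qK, isImUnit_K.sq, mul_neg, mul_one, G.even]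
    ring

theorem isE_of_avg {G G' : SF} {f : ℍ → ℝ} (hf : Cts f) (h1 : ∀ x : ℍ, x ≠ 0 → G x = avgK f x)
    (h2 : ∀ x : ℍ, G' x = G (x * qI)) : IsE ((1 / 2 : ℝ) • (G + G') : SF) := by
  have r1 : ∀ (x : ℍ) (t : ℝ), G (x * rot qK t) = G x := by
    intro x t
    by_cases hx : x = 0
    · subst hx; simp
    · rw [h1 _ hx, h1 _ (rrot_ne_zero isImUnit_K hx t)]
      exact avgA_rot isImUnit_K hf hx t
  refine ⟨fun x t => ?_, fun x => ?_⟩
  · simp only [smul_apply, add_apply, h2]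
    rw [r1, mul_assoc, rotK_mul_I, ← mul_assoc, r1]
  · simp only [smul_apply, add_apply, h2]
    rw [mul_assoc x qI qI, isImUnit_I.sq, mul_neg, mul_one, G.even]
    ring

theorem qK_ne : qK ≠ 0 := fun h => by have := isImUnit_K.norm_eq; simp [h] at this
theorem qI_ne : qI ≠ 0 := fun h => by have := isImUnit_I.norm_eq; simp [h] at this
theorem qJ_ne : qJ ≠ 0 := fun h => by have := isImUnit_J.norm_eq; simp [h] at this

theorem dens_un (hM : MNFacts) (f : ℍ → ℝ) (hf : Cts f) (hU : IsU f) (ε : ℝ) (hε : 0 < ε) :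
    ∃ n, ∃ F ∈ UN n, ∀ x : ℍ, x ≠ 0 → |f x - F x| ≤ ε := by
  obtain ⟨n, F, hF, hFf⟩ := dens_mn f hf ε hε
  obtain ⟨G, hG, hG1⟩ := hM.avgI_mem n F hF
  obtain ⟨G', hG', hG2⟩ := hM.rcomp n qK G qK_ne hG
  refine ⟨n, (1 / 2 : ℝ) • (G + G'), ⟨(MN n).smul_mem _ ((MN n).add_mem hG hG'),
    isU_of_avg (cts_SF F) hG1 hG2⟩, ?_⟩
  have key : ∀ x : ℍ, x ≠ 0 → |f x - G x| ≤ ε := by
    intro x hx
    rw [hG1 x hx]
    apply avg_close (continuous_right isImUnit_I (cts_SF F) hx)
    intro t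
    rw [← hU.rotI x t]
    exact hFf _ (rrot_ne_zero isImUnit_I hx t)
  intro x hx
  have k1 := key x hx
  have k2 := key (x * qK) (mul_ne_zero hx qK_ne)
  rw [hU.mulK] at k2
  simp only [smul_apply, add_apply, hG2]
  rw [abs_le] at k1 k2 ⊢
  constructor <;> linarith [k1.1, k1.2, k2.1, k2.2]

theorem dens_en (hM : MNFacts) (f : ℍ → ℝ) (hf : Cts f) (hE : IsE f) (ε : ℝ) (hε : 0 < ε) :
    ∃ n, ∃ F ∈ EN n, ∀ x : ℍ, x ≠ 0 → |f x - F x| ≤ ε := by
  obtain ⟨n, F, hF, hFf⟩ := dens_mn f hf ε hε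
  obtain ⟨G, hG, hG1⟩ := hM.avgK_mem n F hF
  obtain ⟨G', hG', hG2⟩ := hM.rcomp n qI G qI_ne hG
  refine ⟨n, (1 / 2 : ℝ) • (G + G'), ⟨(MN n).smul_mem _ ((MN n).add_mem hG hG'),
    isE_of_avg (cts_SF F) hG1 hG2⟩, ?_⟩
  have key : ∀ x : ℍ, x ≠ 0 → |f x - G x| ≤ ε := by
    intro x hx
    rw [hG1 x hx]
    apply avg_close (continuous_right isImUnit_K (cts_SF F) hx)
    intro t
    rw [← hE.rotK x t]
    exact hFf _ (rrot_ne_zero isImUnit_K hx t)
  intro x hx
  have k1 := key x hx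
  have k2 := key (x * qI) (mul_ne_zero hx qI_ne)
  rw [hE.mulI] at k2
  simp only [smul_apply, add_apply, hG2]
  rw [abs_le] at k1 k2 ⊢
  constructor <;> linarith [k1.1, k1.2, k2.1, k2.2]

/-! ### the zero lemma -/

theorem dens_zero (hM : MNFacts) (F : ℍ → ℝ) (hF : Cts F) (hK : IsKlein F)
    (h : ∀ n, ∀ ψ ∈ EN n, ip F ψ = 0) : ∀ x : ℍ, x ≠ 0 → avgK F x = 0 := by
  set g : ℍ → ℝ := avgK F with hg
  have hgc : Cts g := avgA_cts isImUnit_K hF
  -- make an honest e-function, zero at the origin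
  have hgE : ∀ (x : ℍ), x ≠ 0 → (∀ t, g (x * rot qK t) = g x) ∧ g (x * qI) = g x := by
    intro x hx
    refine ⟨fun t => avgA_rot isImUnit_K hF hx t, ?_⟩
    exact avgA_mul isImUnit_K rotK_mul_I hF hx fun t => hK.mulI _
  have hgE' : IsE g := by
    refine ⟨fun x t => ?_, fun x => ?_⟩
    · by_cases hx : x = 0
      · subst hx; simp
      · exact (hgE x hx).1 t
    · by_cases hx : x = 0
      · subst hx; simp
      · exact (hgE x hx).2
  have horth : ∀ n, ∀ ψ ∈ EN n, ip g ψ = 0 := by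
    intro n ψ hψ
    have h0 := h n ψ hψ
    have hu : ContinuousOn (Function.uncurry fun (x : ℍ) (t : ℝ) => F (x * rot qK t) * ψ x)
        ({0}ᶜ ×ˢ univ) := by
      apply (continuousOn_right isImUnit_K hF).mul
      exact ψ.continuousOn.comp continuousOn_fst fun p hp => hp.1
    have e1 : ip g ψ = (1 / (2 * π)) * ∫ x in shell, ∫ t in (0:ℝ)..(2 * π), F (x * rot qK t) * ψ x := by
      rw [ip, ← integral_const_mul]
      congr 1
      funext x
      rw [hg, avgK, intervalIntegral.integral_mul_const]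
      ring
    rw [e1, fubini_shell hu (by positivity)]
    have e2 : ∀ t, ∫ x in shell, F (x * rot qK t) * ψ x = 0 := by
      intro t
      have h3 : (fun x => F (x * rot qK t) * ψ x) = fun x => (fun y => F y * ψ y) (x * rot qK t) := by
        funext x; simp only [hψ.2.rotK]
      rw [h3, integral_shell_mul (norm_rot isImUnit_K t) fun y => F y * ψ y]
      exact h0
    simp_rw [e2]
    simp
  have hsq : ∫ x in shell, g x ^ 2 = 0 := by
    have i1 : IntegrableOn (fun x => g x ^ 2) shell := integrableOn_shell (hgc.cont.pow 2)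
    have i2 : IntegrableOn (fun x => |g x|) shell := integrableOn_shell hgc.cont.abs
    have hnn : 0 ≤ ∫ x in shell, g x ^ 2 :=
      setIntegral_nonneg measurableSet_shell fun _ _ => sq_nonneg _
    have hle : ∀ ε : ℝ, 0 < ε → ∫ x in shell, g x ^ 2 ≤ ε * ∫ x in shell, |g x| := by
      intro ε hε
      obtain ⟨n, ψ, hψ, hψg⟩ := dens_en hM g hgc hgE' ε hε
      have h0 := horth n ψ hψ
      have i3 : IntegrableOn (fun x => g x * ψ x) shell :=
        integrableOn_shell (hgc.cont.mul ψ.continuousOn)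
      have e3 : ∫ x in shell, g x ^ 2 = ∫ x in shell, (g x ^ 2 - g x * ψ x) := by
        rw [integral_sub i1 i3]
        have : ∫ x in shell, g x * ψ x = 0 := h0
        rw [this, sub_zero]
      rw [e3, ← integral_const_mul]
      apply setIntegral_mono_on (i1.sub i3) (i2.const_mul ε) measurableSet_shell
      intro x hx
      have h1 := hψg x (ne_zero_of_mem_shell hx)
      have h2 : g x ^ 2 - g x * ψ x = g x * (g x - ψ x) := by ring
      change g x ^ 2 - g x * ψ x ≤ ε * |g x|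
      rw [h2]
      calc g x * (g x - ψ x) ≤ |g x * (g x - ψ x)| := le_abs_self _
        _ = |g x| * |g x - ψ x| := abs_mul _ _
        _ ≤ |g x| * ε := mul_le_mul_of_nonneg_left h1 (abs_nonneg _)
        _ = ε * |g x| := mul_comm _ _
    have hA : 0 ≤ ∫ x in shell, |g x| :=
      setIntegral_nonneg measurableSet_shell fun _ _ => abs_nonneg _
    apply le_antisymm _ hnn
    apply le_of_forall_pos_le_add
    intro δ hδ
    have h1 := hle (δ / ((∫ x in shell, |g x|) + 1)) (by positivity)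
    have h2 : δ / ((∫ x in shell, |g x|) + 1) * ∫ x in shell, |g x| ≤ δ := by
      rw [div_mul_eq_mul_div, div_le_iff₀ (by positivity)]
      nlinarith
    linarith
  exact eq_zero_of_sq hgc hsq

end Pool.Agent.MP85963d.H93
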