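import Mathlib
import Pool.Agent.Lib.MP_85963d_gt.H93.Dens2

/-!
# Density of the polynomial spaces: modes, final statement (module DENS)
-/

set_option autoImplicit false

open MeasureTheory Set Filter Topology Quaternion
open scoped Real ContDiff

namespace Pool.Agent.MP85963d.H93

open SF

/-- `(1/π) ∫ cos(kα) f(rot(k,α) x) dα` -/
noncomputable def TT (k : ℕ) (f : ℍ → ℝ) (x : ℍ) : ℝ :=
  (1 / π) * ∫ α in (0:ℝ)..(2 * π), Real.cos (k * α) * f (rot qK α * x)

theorem continuous_left {a : ℍ} (ha : IsImUnit a) {f : ℍ → ℝ} (hf : Cts f) {x : ℍ} (hx : x ≠ 0) :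
    Continuous fun t : ℝ => f (rot a t * x) := by
  rw [← continuousOn_univ]
  exact hf.cont.comp ((continuous_rot a).mul continuous_const).continuousOn
    fun t _ => lrot_ne_zero ha hx t

theorem continuousOn_left (k : ℕ) {a : ℍ} (ha : IsImUnit a) {f : ℍ → ℝ} (hf : Cts f) :
    ContinuousOn (Function.uncurry fun (x : ℍ) (t : ℝ) => Real.cos (k * t) * f (rot a t * x))
      ({0}ᶜ ×ˢ univ) := by
  have h1 : Continuous fun p : ℍ × ℝ => Real.cos (k * p.2) := by fun_prop
  have h2 : ContinuousOn (fun p : ℍ × ℝ => f (rot a p.2 * p.1)) ({0}ᶜ ×ˢ univ) := by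
    apply hf.cont.comp
    · exact (((continuous_rot a).comp continuous_snd).mul continuous_fst).continuousOn
    · rintro ⟨x, t⟩ ⟨hx, -⟩
      exact lrot_ne_zero ha hx t
  exact h1.continuousOn.mul h2

theorem TT_cts (k : ℕ) {f : ℍ → ℝ} (hf : Cts f) : Cts (TT k f) := by
  refine ⟨(continuousOn_param (continuousOn_left k isImUnit_K hf) _ _).const_smul (1 / π), ?_⟩
  intro r x hr hx
  simp only [TT]
  congr 2
  funext t
  rw [mul_smul_comm, hf.hom r _ hr (lrot_ne_zero isImUnit_K hx t)]

theorem cos_periodic (k : ℕ) : Function.Periodic (fun t : ℝ => Real.cos (k * t)) (2 * π) := by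
  intro t
  change Real.cos (k * (t + 2 * π)) = Real.cos (k * t)
  have : (k:ℝ) * (t + 2 * π) = k * t + k * (2 * π) := by ring
  rw [this, Real.cos_add_nat_mul_two_pi]

/-- shift formula -/
theorem TT_shift (k : ℕ) {f : ℍ → ℝ} (hf : Cts f) {x : ℍ} (hx : x ≠ 0) (β : ℝ) :
    TT k f (rot qK β * x)
      = (1 / π) * ∫ α in (0:ℝ)..(2 * π), Real.cos (k * (α - β)) * f (rot qK α * x) := by
  simp only [TT]
  congr 1
  have h1 : ∀ α, Real.cos (k * α) * f (rot qK α * (rot qK β * x))
      = (fun γ => Real.cos (k * (γ - β)) * f (rot qK γ * x)) (α + β) := by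
    intro α
    simp only [add_sub_cancel_right]
    rw [rot_add isImUnit_K, mul_assoc]
  simp_rw [h1]
  rw [intervalIntegral.integral_comp_add_right
    (fun γ => Real.cos (k * (γ - β)) * f (rot qK γ * x)) β]
  have hper : Function.Periodic (fun γ => Real.cos (k * (γ - β)) * f (rot qK γ * x)) (2 * π) := by
    intro γ
    have e1 := cos_periodic k (γ - β)
    have e2 := periodic_left isImUnit_K hf hx γ
    simp only at e1 e2 ⊢
    rw [e2, show γ + 2 * π - β = γ - β + 2 * π by ring, e1]
  have := hper.intervalIntegral_add_eq (0 + β) 0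
  rw [zero_add] at this ⊢
  rw [add_comm (2 * π) β, this]
  simp

theorem TT_rot (k : ℕ) {f : ℍ → ℝ} (hf : Cts f) {x : ℍ} (hx : x ≠ 0) (β : ℝ) :
    TT k f (rot qK β * x) + TT k f (rot qK (-β) * x) = 2 * Real.cos (k * β) * TT k f x := by
  rw [TT_shift k hf hx β, TT_shift k hf hx (-β), ← mul_add]
  have i1 : IntervalIntegrable (fun α : ℝ => Real.cos (k * (α - β)) * f (rot qK α * x)) volume
      0 (2 * π) := by
    apply Continuous.intervalIntegrable
    exact (by fun_prop : Continuous fun α : ℝ => Real.cos (k * (α - β))).mul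
      (continuous_left isImUnit_K hf hx)
  have i2 : IntervalIntegrable (fun α : ℝ => Real.cos (k * (α - -β)) * f (rot qK α * x)) volume
      0 (2 * π) := by
    apply Continuous.intervalIntegrable
    exact (by fun_prop : Continuous fun α : ℝ => Real.cos (k * (α - -β))).mul
      (continuous_left isImUnit_K hf hx)
  have key : (∫ α in (0:ℝ)..(2 * π), Real.cos (k * (α - β)) * f (rot qK α * x))
      + (∫ α in (0:ℝ)..(2 * π), Real.cos (k * (α - -β)) * f (rot qK α * x))
      = 2 * Real.cos (k * β) * ∫ α in (0:ℝ)..(2 * π), Real.cos (k * α) * f (rot qK α * x) := by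
    rw [← intervalIntegral.integral_add i1 i2, ← intervalIntegral.integral_const_mul]
    apply intervalIntegral.integral_congr
    intro α _
    have e1 : (k:ℝ) * (α - β) = k * α - k * β := by ring
    have e2 : (k:ℝ) * (α - -β) = k * α + k * β := by ring
    simp only [e1, e2, Real.cos_sub, Real.cos_add]
    ring
  rw [key, TT]
  ring

/-- `T f = f` on modes `k ≥ 1` -/
theorem TT_mode {k : ℕ} (hk : 1 ≤ k) {f : ℍ → ℝ} (hf : Cts f) (hm : Mode k f) {x : ℍ} (hx : x ≠ 0) :
    TT k f x = f x := by
  have hc := continuous_left isImUnit_K hf hx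
  have hcos : Continuous fun α : ℝ => Real.cos (k * α) := by fun_prop
  have i1 : IntervalIntegrable (fun α => Real.cos (k * α) * f (rot qK α * x)) volume 0 (2 * π) :=
    (hcos.mul hc).intervalIntegrable _ _
  -- symmetrisation
  have e1 : ∫ α in (0:ℝ)..(2 * π), Real.cos (k * α) * f (rot qK α * x)
      = ∫ α in (0:ℝ)..(2 * π), Real.cos (k * α) * f (rot qK (-α) * x) := by
    have h1 : ∀ α, Real.cos (k * α) * f (rot qK (-α) * x)
        = (fun γ => Real.cos (k * γ) * f (rot qK γ * x)) (-α) := by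
      intro α
      simp only [mul_neg, Real.cos_neg]
    simp_rw [h1]
    rw [intervalIntegral.integral_comp_neg fun γ => Real.cos (k * γ) * f (rot qK γ * x)]
    have hper : Function.Periodic (fun γ => Real.cos (k * γ) * f (rot qK γ * x)) (2 * π) :=
      (cos_periodic k).mul (periodic_left isImUnit_K hf hx)
    have := hper.intervalIntegral_add_eq (-(2 * π)) 0
    simpa using this.symm
  have i2 : IntervalIntegrable (fun α => Real.cos (k * α) * f (rot qK (-α) * x)) volume 0 (2 * π) :=
    (hcos.mul (hc.comp continuous_neg)).intervalIntegrable _ _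
  have e2 : 2 * ∫ α in (0:ℝ)..(2 * π), Real.cos (k * α) * f (rot qK α * x)
      = ∫ α in (0:ℝ)..(2 * π), 2 * Real.cos (k * α) ^ 2 * f x := by
    rw [two_mul]
    nth_rewrite 2 [e1]
    rw [← intervalIntegral.integral_add i1 i2]
    congr 1
    funext α
    have := hm.rot α x
    rw [← mul_add, this]
    ring
  have e3 : ∫ α in (0:ℝ)..(2 * π), 2 * Real.cos (k * α) ^ 2 * f x = 2 * π * f x := by
    rw [intervalIntegral.integral_mul_const]
    congr 1
    have hk' : (k:ℝ) ≠ 0 := by exact_mod_cast (by omega : k ≠ 0)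
    have h3 : ∀ α : ℝ, 2 * Real.cos (k * α) ^ 2 = 1 + Real.cos ((2 * k) * α) := by
      intro α
      have := Real.cos_two_mul (k * α)
      rw [show (2 * (k:ℝ)) * α = 2 * (k * α) by ring]
      linarith
    simp_rw [h3]
    rw [intervalIntegral.integral_add (by simp)
      ((by fun_prop : Continuous fun α : ℝ => Real.cos ((2 * k) * α)).intervalIntegrable _ _)]
    rw [intervalIntegral.integral_comp_mul_left (fun u => Real.cos u) (by positivity : (2 * (k:ℝ)) ≠ 0)]
    rw [integral_cos]
    have h4 : Real.sin (2 * k * (2 * π)) = 0 := by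
      have : (2 * (k:ℝ)) * (2 * π) = ((4 * k : ℕ) : ℝ) * π := by push_cast; ring
      rw [this, Real.sin_nat_mul_pi]
    rw [h4]
    simp
  have hpi := Real.pi_ne_zero
  have e4 : ∫ α in (0:ℝ)..(2 * π), Real.cos (k * α) * f (rot qK α * x) = π * f x := by
    rw [e3] at e2; linarith
  rw [TT, e4]
  field_simp

theorem TT_bound (k : ℕ) {f : ℍ → ℝ} {x : ℍ} {ε : ℝ} (h : ∀ t, |f (rot qK t * x)| ≤ ε) :
    |TT k f x| ≤ 2 * ε := by
  have hpi := Real.pi_pos
  rw [TT, abs_mul, abs_of_pos (by positivity : 0 < 1 / π)]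
  have h1 : |∫ α in (0:ℝ)..(2 * π), Real.cos (k * α) * f (rot qK α * x)| ≤ ε * |2 * π - 0| := by
    rw [← Real.norm_eq_abs]
    apply intervalIntegral.norm_integral_le_of_norm_le_const
    intro t _
    rw [norm_mul, Real.norm_eq_abs, Real.norm_eq_abs]
    calc |Real.cos (k * t)| * |f (rot qK t * x)| ≤ 1 * |f (rot qK t * x)| :=
          mul_le_mul_of_nonneg_right (Real.abs_cos_le_one _) (abs_nonneg _)
      _ ≤ ε := by rw [one_mul]; exact h t
  rw [sub_zero, abs_of_pos (by positivity : 0 < 2 * π)] at h1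
  calc (1 / π) * |∫ α in (0:ℝ)..(2 * π), Real.cos (k * α) * f (rot qK α * x)|
      ≤ (1 / π) * (ε * (2 * π)) := mul_le_mul_of_nonneg_left h1 (by positivity)
    _ = 2 * ε := by field_simp

theorem TT_sub (k : ℕ) {f g : ℍ → ℝ} (hf : Cts f) (hg : Cts g) {x : ℍ} (hx : x ≠ 0) :
    TT k f x - TT k g x = TT k (fun z => f z - g z) x := by
  have hcos : Continuous fun α : ℝ => Real.cos (k * α) := by fun_prop
  simp only [TT]
  have i1 : IntervalIntegrable (fun α : ℝ => Real.cos (k * α) * f (rot qK α * x)) volume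
      0 (2 * π) := (hcos.mul (continuous_left isImUnit_K hf hx)).intervalIntegrable _ _
  have i2 : IntervalIntegrable (fun α : ℝ => Real.cos (k * α) * g (rot qK α * x)) volume
      0 (2 * π) := (hcos.mul (continuous_left isImUnit_K hg hx)).intervalIntegrable _ _
  rw [← mul_sub, ← intervalIntegral.integral_sub i1 i2]
  congr 2
  funext α
  ring

/-- `T` preserves `MN n` -/
theorem TT_mem (hM : MNFacts) (k n : ℕ) (F : SF) (hF : F ∈ MN n) :
    ∃ G ∈ MN n, ∀ x : ℍ, x ≠ 0 → G x = TT k F x := by
  have hc := TT_cts k (cts_SF F)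
  obtain ⟨G, hG, hG1⟩ := hM.proj n (TT k F) hc
  refine ⟨G, hG, ?_⟩
  set D : ℍ → ℝ := fun x => TT k F x - G x with hD
  have hDc : Cts D := by
    refine ⟨hc.cont.sub G.continuousOn, fun r x hr hx => ?_⟩
    simp only [hD]
    rw [hc.hom r x hr hx, G.hom hr]
  have h1 : ∀ K ∈ MN n, ∫ x in shell, D x * K x = 0 := by
    intro K hK
    have h2 := hG1 K hK
    have e : ∫ x in shell, D x * K x
        = (∫ x in shell, TT k F x * K x) - ∫ x in shell, G x * K x := by
      have j1 : IntegrableOn (fun x => TT k F x * K x) shell :=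
        integrableOn_shell (hc.cont.mul K.continuousOn)
      have j2 : IntegrableOn (fun x => G x * K x) shell :=
        integrableOn_shell (G.continuousOn.mul K.continuousOn)
      rw [← integral_sub j1 j2]
      congr 1
      funext x
      simp only [hD]
      ring
    rw [e]
    simp only [ip] at h2
    rw [h2, sub_self]
  have h3 : ∫ x in shell, D x * TT k F x = 0 := by
    have hu : ContinuousOn (Function.uncurry fun (x : ℍ) (t : ℝ) =>
        D x * (Real.cos (k * t) * F (rot qK t * x))) ({0}ᶜ ×ˢ univ) := by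
      apply ContinuousOn.mul
      · exact hDc.cont.comp continuousOn_fst fun p hp => hp.1
      · exact continuousOn_left k isImUnit_K (cts_SF F)
    have e1 : ∫ x in shell, D x * TT k F x
        = (1 / π) * ∫ x in shell, ∫ t in (0:ℝ)..(2 * π),
          D x * (Real.cos (k * t) * F (rot qK t * x)) := by
      rw [← integral_const_mul]
      congr 1
      funext x
      rw [TT, intervalIntegral.integral_const_mul]
      ring
    rw [e1, fubini_shell hu (by positivity)]
    have e2 : ∀ t, ∫ x in shell, D x * (Real.cos (k * t) * F (rot qK t * x)) = 0 := by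
      intro t
      obtain ⟨K, hK, hK1⟩ := hM.lcomp n (rot qK t) F (rot_ne_zero isImUnit_K t) hF
      have e3 := h1 K hK
      have e4 : (fun x => D x * (Real.cos (k * t) * F (rot qK t * x)))
          = fun x => Real.cos (k * t) * (D x * K x) := by
        funext x
        rw [hK1]
        ring
      rw [e4, integral_const_mul, e3, mul_zero]
    simp_rw [e2]
    simp
  have h4 : ∫ x in shell, D x ^ 2 = 0 := by
    have e : ∫ x in shell, D x ^ 2
        = (∫ x in shell, D x * TT k F x) - ∫ x in shell, D x * G x := by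
      have j1 : IntegrableOn (fun x => D x * TT k F x) shell :=
        integrableOn_shell (hDc.cont.mul hc.cont)
      have j2 : IntegrableOn (fun x => D x * G x) shell :=
        integrableOn_shell (hDc.cont.mul G.continuousOn)
      rw [← integral_sub j1 j2]
      congr 1
      funext x
      simp only [hD]
      ring
    rw [e, h3, h1 G hG, sub_zero]
  intro x hx
  have := eq_zero_of_sq hDc h4 x hx
  simp only [hD] at this
  linarith

theorem dens_mode (hM : MNFacts) (k : ℕ) (hk : 1 ≤ k) (f : ℍ → ℝ) (hf : Cts f) (hU : IsU f)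
    (hm : Mode k f) (ε : ℝ) (hε : 0 < ε) :
    ∃ n, ∃ F ∈ SNk k n, ∀ x : ℍ, x ≠ 0 → |f x - F x| ≤ ε := by
  obtain ⟨n, F, hF, hFf⟩ := dens_un hM f hf hU (ε / 2) (by positivity)
  obtain ⟨G, hG, hG1⟩ := TT_mem hM k n F hF.1
  obtain ⟨G', hG', hG2⟩ := hM.lcomp n qJ G qJ_ne hG
  have hFc := cts_SF F
  have rI : ∀ (x : ℍ) (t : ℝ), G (x * rot qI t) = G x := by
    intro x t
    by_cases hx : x = 0
    · subst hx; simp
    · rw [hG1 _ hx, hG1 _ (rrot_ne_zero isImUnit_I hx t)]
      simp only [TT, ← mul_assoc, hF.2.rotI]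
  have rK : ∀ x : ℍ, G (x * qK) = G x := by
    intro x
    by_cases hx : x = 0
    · subst hx; simp
    · rw [hG1 _ hx, hG1 _ (mul_ne_zero hx qK_ne)]
      simp only [TT, ← mul_assoc, hF.2.mulK]
  have rM : ∀ (x : ℍ) (α : ℝ), G (rot qK α * x) + G (rot qK (-α) * x)
      = 2 * Real.cos (k * α) * G x := by
    intro x α
    by_cases hx : x = 0
    · subst hx; simp [map_zero']
    · rw [hG1 _ hx, hG1 _ (lrot_ne_zero isImUnit_K hx α), hG1 _ (lrot_ne_zero isImUnit_K hx (-α))]
      exact TT_rot k hFc hx α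
  refine ⟨n, (1 / 2 : ℝ) • (G + G'), ⟨⟨(MN n).smul_mem _ ((MN n).add_mem hG hG'),
    ⟨fun x t => ?_, fun x => ?_⟩⟩, ⟨fun α x => ?_, fun x => ?_⟩⟩, ?_⟩
  · simp only [smul_apply, add_apply, hG2]
    rw [rI, ← mul_assoc, rI]
  · simp only [smul_apply, add_apply, hG2]
    rw [rK, ← mul_assoc, rK]
  · simp only [smul_apply, add_apply, hG2]
    have h1 := rM x α
    have h2 := rM (qJ * x) α
    have e1 : qJ * (rot qK α * x) = rot qK (-α) * (qJ * x) := by
      rw [← mul_assoc, J_mul_rotK, mul_assoc]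
    have e2 : qJ * (rot qK (-α) * x) = rot qK α * (qJ * x) := by
      rw [← mul_assoc, J_mul_rotK, mul_assoc, neg_neg]
    rw [e1, e2]
    linarith
  · simp only [smul_apply, add_apply, hG2]
    rw [← mul_assoc qJ qJ x, isImUnit_J.sq, neg_mul, one_mul, G.even]
    ring
  · have key : ∀ x : ℍ, x ≠ 0 → |f x - G x| ≤ ε := by
      intro x hx
      rw [hG1 x hx]
      nth_rewrite 1 [← TT_mode hk hf hm hx]
      rw [TT_sub k hf hFc hx]
      have h1 := TT_bound k (f := fun z => f z - F z) (x := x) (ε := ε / 2)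
        fun t => hFf _ (lrot_ne_zero isImUnit_K hx t)
      linarith
    intro x hx
    have k1 := key x hx
    have k2 := key (qJ * x) (mul_ne_zero qJ_ne hx)
    rw [hm.mulJ] at k2
    simp only [smul_apply, add_apply, hG2]
    rw [abs_le] at k1 k2 ⊢
    constructor <;> linarith [k1.1, k1.2, k2.1, k2.2]

/-- Module DENS. -/
theorem dens_of (hM : MNFacts) : DensFacts where
  mn := dens_mn
  un := dens_un hM
  mode := dens_mode hM
  zero := dens_zero hM

end Pool.Agent.MP85963d.H93
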